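import Pool.Agent.Helper48.OR.Defs

/-!
# One-relator algebras (MP_b71150_al), part M1: in every monoid satisfying the relations of a
stack machine the final state is reached
-/

set_option autoImplicit false

namespace Pool.Agent.Helper84.OR

open Pool.Agent.Helper91.SG
open Pool.Agent.Helper48.OR

variable {Q K A E : Type} [Monoid E]

private theorem wz_cons (j : K) (ks : List K) (z : K → List A) :
    wz (Q := Q) (j :: ks) z = (z j).map (Om.lt j) ++ wz ks z := by
  simp [wz]

/-- the product of the letters of one stack -/
private theorem pile_comm [DecidableEq K] (δ : Q → Cmd Q K A) (qr : Q) (T : Om Q K A → E)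
    (hT : ∀ u v, Rel δ qr u v → (u.map T).prod = (v.map T).prod) (k j : K) (h : k ≠ j) (a : A)
    (l : List A) :
    ((l.map (Om.lt j)).map T).prod * T (.lt k a) = T (.lt k a) * ((l.map (Om.lt j)).map T).prod := by
  induction l with
  | nil => simp
  | cons b l ih =>
    have h1 := hT _ _ (Rel.comm (δ := δ) (qr := qr) k a j b h)
    simp only [List.map_cons, List.map_nil, List.prod_cons, List.prod_nil, mul_one] at h1
    simp only [List.map_cons, List.prod_cons]
    rw [mul_assoc, ih, ← mul_assoc, ← h1, mul_assoc]

/-- pushing a letter -/
private theorem push_wz [DecidableEq K] (δ : Q → Cmd Q K A) (qr : Q) (T : Om Q K A → E)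
    (hT : ∀ u v, Rel δ qr u v → (u.map T).prod = (v.map T).prod) (k : K) (a : A) (l : List A)
    (z : K → List A) (ks : List K) (hn : ks.Nodup) (hk : k ∈ ks) :
    ((wz ks (Function.update z k (a :: l))).map T).prod =
      T (.lt k a) * ((wz ks (Function.update z k l)).map T).prod := by
  induction ks with
  | nil => simp at hk
  | cons j ks ih =>
    rw [wz_cons, wz_cons, List.map_append, List.map_append, List.prod_append, List.prod_append]
    rw [List.nodup_cons] at hn
    by_cases hj : j = k
    · subst hj
      have h1 : ∀ l' : List A, wz (Q := Q) ks (Function.update z j l') = wz ks z := by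
        intro l'
        unfold wz
        apply List.flatMap_congr
        intro i hi
        rw [Function.update_of_ne]
        rintro rfl
        exact hn.1 hi
      rw [h1, h1, Function.update_self, Function.update_self, List.map_cons, List.map_cons,
        List.prod_cons, mul_assoc]
    · have hk' : k ∈ ks := by
        rcases List.mem_cons.mp hk with h | h
        · exact absurd h.symm hj
        · exact h
      rw [Function.update_of_ne hj, Function.update_of_ne hj, ih hn.2 hk', ← mul_assoc, ← mul_assoc,
        pile_comm δ qr T hT k j (fun h => hj h.symm) a (z j)]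

/-- one step of the machine -/
private theorem step_wz [DecidableEq K] (δ : Q → Cmd Q K A) (qr : Q) (T : Om Q K A → E)
    (hT : ∀ u v, Rel δ qr u v → (u.map T).prod = (v.map T).prod) (ks : List K) (hn : ks.Nodup)
    (hk : ∀ k, k ∈ ks) (c c' : Q × (K → List A)) (h : step δ c = some c') :
    T (.st c.1) * ((wz ks c.2).map T).prod = T (.st c'.1) * ((wz ks c'.2).map T).prod := by
  obtain ⟨q, z⟩ := c
  obtain ⟨q', z'⟩ := c'
  unfold step at h
  simp only at h ⊢
  cases hδ : δ q with
  | halt => rw [hδ] at h; simp at h
  | jump p =>
    rw [hδ] at h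
    simp only [Option.some.injEq, Prod.mk.injEq] at h
    obtain ⟨rfl, rfl⟩ := h
    have h1 := hT _ _ (Rel.jump q p hδ)
    simp only [List.map_cons, List.map_nil, List.prod_cons, List.prod_nil, mul_one] at h1
    rw [h1]
  | push k a p =>
    rw [hδ] at h
    simp only [Option.some.injEq, Prod.mk.injEq] at h
    obtain ⟨rfl, rfl⟩ := h
    have h1 := hT _ _ (Rel.push q k a p hδ)
    simp only [List.map_cons, List.map_nil, List.prod_cons, List.prod_nil, mul_one] at h1
    have h2 := push_wz δ qr T hT k a (z k) z ks hn (hk k)
    rw [Function.update_eq_self] at h2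
    rw [h1, h2, mul_assoc]
  | pop k f =>
    rw [hδ] at h
    simp only at h
    cases hz : z k with
    | nil => rw [hz] at h; simp at h
    | cons a l =>
      rw [hz] at h
      simp only [Option.some.injEq, Prod.mk.injEq] at h
      obtain ⟨rfl, rfl⟩ := h
      have h1 := hT _ _ (Rel.pop q k f a hδ)
      simp only [List.map_cons, List.map_nil, List.prod_cons, List.prod_nil, mul_one] at h1
      have h2 := push_wz δ qr T hT k a l z ks hn (hk k)
      rw [← hz, Function.update_eq_self] at h2
      rw [h2, ← mul_assoc, h1]

/-- the final state absorbs every word of stack letters -/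
private theorem absorb [DecidableEq K] (δ : Q → Cmd Q K A) (qr : Q) (T : Om Q K A → E)
    (hT : ∀ u v, Rel δ qr u v → (u.map T).prod = (v.map T).prod) (ks : List K)
    (z : K → List A) : T (.st qr) * ((wz ks z).map T).prod = T (.st qr) := by
  have key : ∀ (j : K) (l : List A), T (.st qr) * ((l.map (Om.lt j)).map T).prod = T (.st qr) := by
    intro j l
    induction l with
    | nil => simp
    | cons b l ih =>
      have h1 := hT _ _ (Rel.halt (δ := δ) (qr := qr) j b)
      simp only [List.map_cons, List.map_nil, List.prod_cons, List.prod_nil, mul_one] at h1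
      simp only [List.map_cons, List.prod_cons]
      rw [← mul_assoc, h1, ih]
  induction ks with
  | nil => simp [wz]
  | cons j ks ih =>
    rw [wz_cons, List.map_append, List.prod_append, ← mul_assoc, key, ih]

/-- Part M1. -/
theorem m1 : StM1 := by
  intro Q K A _ δ qr E _ T ks c hT hn hk hR
  obtain ⟨c', hc, hq⟩ := hR
  have h1 : T (.st c.1) * ((wz ks c.2).map T).prod = T (.st c'.1) * ((wz ks c'.2).map T).prod := by
    clear hq
    induction hc with
    | refl => rfl
    | tail _ hs ih => rw [ih]; exact step_wz δ qr T hT ks hn hk _ _ hs
  rw [List.map_cons, List.prod_cons, h1, hq, absorb δ qr T hT]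

end Pool.Agent.Helper84.OR
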